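import Pool.Agent.K3h17.Stm4
import Pool.Agent.K3h53.Evn.Main

/-!
Brick EVN2 of the project of helper17: parity of a permutation by a determinant, with a sign
(the proof is that of `Pool.Agent.K3h53.Evn.t_evn` by helper53).
-/

set_option autoImplicit false

namespace Pool.Agent.K3h66.Evn2

open Polynomial Matrix Pool.Agent.K3h53.Evn

theorem t_evn2 : Pool.Agent.K3h17.St_evn2 := by
  intro N _ _ m d hm hd σ S T g D a ε hS hg hD ha hdeg s hsinj hs hsD x hxinj hxT hxD e h hh0
    he hh hσS hσT hσg hσD hσa π hπx hπe hπh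
  classical
  obtain ⟨hall, hsimple⟩ := roots_all S T hd hS s hsinj hs
  -- the permutation of the roots
  have hτ0 : ∀ j, ∃ j', s j' = σ (s j) := by
    intro j
    apply hall
    rw [← eval_map_equiv σ S hσS, hs j, hσT]
  choose τf hτf using hτ0
  have hτinj : Function.Injective τf := by
    intro j j' hjj
    apply hsinj
    apply σ.injective
    rw [← hτf j, ← hτf j', hjj]
  let τ : Equiv.Perm (Fin d) := Equiv.ofBijective τf ((Finite.injective_iff_bijective).1 hτinj)
  have hτ : ∀ j, σ (s j) = s (τ j) := fun j => (hτf j).symm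
  -- the matrices
  set V := vand d (ab x s) (uu D x s e) with hV
  set B := bez d (AA S D a) with hB
  have hcard : Fintype.card (Fin d × (Fin m ⊕ Fin m)) =
      Fintype.card (Fin (m * d) ⊕ (Fin d × Fin m)) := by
    simp only [Fintype.card_prod, Fintype.card_sum, Fintype.card_fin]
    ring
  let φ : (Fin d × (Fin m ⊕ Fin m)) ≃ (Fin (m * d) ⊕ (Fin d × Fin m)) :=
    Fintype.equivOfCardEq hcard
  set W : Matrix (Fin d × (Fin m ⊕ Fin m)) (Fin d × (Fin m ⊕ Fin m)) N := V.submatrix id φ with hW
  let δ : Fin (m * d) ⊕ (Fin d × Fin m) → N := fun c => match c with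
    | Sum.inl i => h i ^ 2
    | Sum.inr jp => - (derivative S).eval (s jp.1) / (D jp.2).eval (s jp.1)
  have hG : Vᵀ * B * V = Matrix.diagonal δ := by
    ext k l
    by_cases hkl : k = l
    · subst hkl
      rw [Matrix.diagonal_apply_eq]
      rcases k with i | ⟨j, p⟩
      · exact diagInl S D a hd hS hD hdeg ha s x hxD e h hh i
      · rw [hV, hB, entInr S D a hd hS hD hdeg s hsD x e j p p, if_pos rfl]
    · rw [Matrix.diagonal_apply_ne _ hkl]
      by_cases hab : ab x s k = ab x s l
      · rcases k with i | ⟨j, p⟩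
        · rcases l with i' | ⟨j', p'⟩
          · exact absurd (congrArg Sum.inl (hxinj hab)) hkl
          · exfalso
            apply hxT i
            have : x i = s j' := hab
            rw [this, hs]
        · rcases l with i' | ⟨j', p'⟩
          · exfalso
            apply hxT i'
            have : s j = x i' := hab
            rw [← this, hs]
          · have hjj : j = j' := hsinj hab
            subst hjj
            rw [hV, hB, entInr S D a hd hS hD hdeg s hsD x e j p p', if_neg]
            intro hpp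
            apply hkl
            rw [hpp]
      · exact off S T D a hd hS hD hdeg ha s hs hsD x hxD e he k l hab
  have hWG : Wᵀ * B * W = (Matrix.diagonal δ).submatrix φ φ := by
    rw [← hG, hW]
    ext r r'
    simp only [Matrix.mul_apply, Matrix.submatrix_apply, Matrix.transpose_apply, id]
  have hdet1 : W.det * B.det * W.det = ∏ c, δ c := by
    have := congrArg Matrix.det hWG
    rw [Matrix.det_mul, Matrix.det_mul, Matrix.det_transpose, Matrix.det_submatrix_equiv_self,
      Matrix.det_diagonal] at this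
    exact this
  -- the determinant of the Hankel matrix
  obtain ⟨t, ht⟩ := hm
  have hlc : B.det = (S.coeff d ^ (m * d)) ^ 2 := by
    rw [hB, det_bez d (AA S D a) (AA_natDegree S D a hd hS hD hdeg) (by simp),
      AA_coeff S D a hd hD hdeg, Matrix.det_smul, det_swap m ⟨t, ht⟩]
    simp only [Fintype.card_sum, Fintype.card_fin, mul_one]
    rw [← pow_mul, ← pow_mul]
    congr 1
    ring
  -- the product of the diagonal
  set Ξ : N := (∏ i, h i) * ∏ j, ((derivative S).eval (s j) ^ t / g.eval (s j)) with hΞ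
  have hprod : ∏ c, δ c = Ξ ^ 2 := by
    rw [Fintype.prod_sum_type, Fintype.prod_prod_type, hΞ, mul_pow, ← Finset.prod_pow,
      ← Finset.prod_pow]
    congr 1
    refine Finset.prod_congr rfl fun j _ => ?_
    have h1 : ∀ p : Fin m, δ (Sum.inr (j, p)) =
        - (derivative S).eval (s j) / (D p).eval (s j) := fun p => rfl
    simp_rw [h1]
    have h2 : ∏ p, (D p).eval (s j) = (g.eval (s j)) ^ 2 := by
      rw [← eval_pow, hg, eval_prod]
    rw [Finset.prod_div_distrib, Finset.prod_const, Finset.card_univ, Fintype.card_fin,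
      div_pow, ← pow_mul, h2]
    congr 1
    rw [ht, ← two_mul, pow_mul, neg_sq, ← pow_mul, mul_comm 2 t]
  have hΞ0 : Ξ ≠ 0 := by
    rw [hΞ]
    refine mul_ne_zero (Finset.prod_ne_zero_iff.2 fun i _ => hh0 i)
      (Finset.prod_ne_zero_iff.2 fun j _ => div_ne_zero (pow_ne_zero _ (hsimple j)) ?_)
    intro h0
    have h1 : (g ^ 2).eval (s j) = 0 := by
      rw [eval_pow, h0]
      ring
    rw [hg, eval_prod, Finset.prod_eq_zero_iff] at h1
    obtain ⟨p, _, hp⟩ := h1
    exact hsD j p hp
  have hε2 : (((ε : ℤˣ) : ℤ) : N) * (((ε : ℤˣ) : ℤ) : N) = 1 := by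
    rcases Int.units_eq_one_or ε with h1 | h1 <;> rw [h1] <;> simp
  have hε0 : (((ε : ℤˣ) : ℤ) : N) ≠ 0 := by
    intro h0
    rw [h0, zero_mul] at hε2
    exact zero_ne_one hε2
  have hεi : ((((ε : ℤˣ) : ℤ) : N))⁻¹ = (((ε : ℤˣ) : ℤ) : N) := by
    exact inv_eq_of_mul_eq_one_left hε2
  have hgσ : ∀ y, σ (g.eval y) = (((ε : ℤˣ) : ℤ) : N) * g.eval (σ y) := by
    intro y
    have h1 : (g.map (σ : N →+* N)).eval (σ y) = σ (g.eval y) := by
      rw [eval_map]
      exact eval₂_at_apply (σ : N →+* N) y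
    rw [← h1, hσg, eval_mul, eval_C]
  have hσΞ : σ Ξ = (((ε : ℤˣ) : ℤ) : N) ^ d * Ξ := by
    rw [hΞ, map_mul, map_prod, map_prod]
    have h1 : ∀ j, σ ((derivative S).eval (s j) ^ t / g.eval (s j)) =
        (((ε : ℤˣ) : ℤ) : N) * ((derivative S).eval (s (τ j)) ^ t / g.eval (s (τ j))) := by
      intro j
      rw [map_div₀, map_pow, hgσ,
        eval_map_equiv σ (derivative S) (by rw [← derivative_map, hσS]), hτ j]
      rw [div_mul_eq_div_div_swap, div_eq_mul_inv _ ((((ε : ℤˣ) : ℤ) : N)), hεi]
      ring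
    simp_rw [h1, hπh]
    rw [Equiv.prod_comp π h, Finset.prod_mul_distrib, Finset.prod_const, Finset.card_univ,
      Fintype.card_fin,
      Equiv.prod_comp τ (fun j => (derivative S).eval (s j) ^ t / g.eval (s j))]
    ring
  -- the square root
  set w : N := W.det * S.coeff d ^ (m * d) with hw
  have hw2 : w ^ 2 = Ξ ^ 2 := by
    rw [← hprod, ← hdet1, hlc, hw]
    ring
  have hσw : σ w = (((ε : ℤˣ) : ℤ) : N) ^ d * w := by
    rcases sq_eq_sq_iff_eq_or_eq_neg.1 hw2 with h1 | h1
    · rw [h1, hσΞ]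
    · rw [h1, map_neg, hσΞ]
      ring
  have hw0 : w ≠ 0 := by
    intro h0
    rw [h0] at hw2
    apply hΞ0
    have : Ξ ^ 2 = 0 := by
      rw [← hw2]
      ring
    exact pow_eq_zero_iff (two_ne_zero) |>.1 this
  -- the action on the determinant
  let ρ : Equiv.Perm (Fin (m * d) ⊕ (Fin d × Fin m)) :=
    Equiv.Perm.sumCongr π (Equiv.prodCongrLeft fun _ : Fin m => τ)
  have hρ : ∀ r c, σ (V r c) = V r (ρ c) := by
    rintro ⟨b, c'⟩ c
    rcases c with i | ⟨j, p⟩
    · have h1 : ρ (Sum.inl i) = Sum.inl (π i) := rfl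
      rw [h1]
      rcases c' with q | q
      · simp only [hV, vand, Matrix.of_apply, ab, uu]
        rw [map_mul, map_pow, map_div₀, map_mul, hπx, hπe, eval_map_equiv σ _ (hσD q), hπx,
          map_ofNat]
      · simp only [hV, vand, Matrix.of_apply, ab, uu]
        rw [map_mul, map_pow, hπx, hπe]
    · have h1 : ρ (Sum.inr (j, p)) = Sum.inr (τ j, p) := rfl
      rw [h1]
      rcases c' with q | q
      · simp only [hV, vand, Matrix.of_apply, ab, uu]
        rw [map_mul, map_pow, hτ]
        congr 1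
        split_ifs
        · rw [map_div₀, map_mul, map_neg, map_one, map_ofNat, eval_map_equiv σ _ (hσD q), hτ]
        · exact map_zero _
      · simp only [hV, vand, Matrix.of_apply, ab, uu]
        rw [map_mul, map_pow, hτ]
        congr 1
        split_ifs
        · exact map_one _
        · exact map_zero _
  have hσdet : σ W.det = Equiv.Perm.sign π * W.det := by
    have h1 : σ W.det = ((σ : N →+* N).mapMatrix W).det := (σ : N →+* N).map_det W
    have h2 : (σ : N →+* N).mapMatrix W = W.submatrix id ((φ.trans ρ).trans φ.symm) := by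
      ext r r'
      rw [RingHom.mapMatrix_apply, Matrix.map_apply, Matrix.submatrix_apply, hW,
        Matrix.submatrix_apply, Matrix.submatrix_apply]
      have h3 : φ (((φ.trans ρ).trans φ.symm) r') = ρ (φ r') := by
        simp
      rw [h3]
      exact hρ _ _
    have h4 : Equiv.Perm.sign ((φ.trans ρ).trans φ.symm) = Equiv.Perm.sign π := by
      rw [Equiv.Perm.sign_trans_trans_symm]
      change Equiv.Perm.sign (Equiv.Perm.sumCongr π (Equiv.prodCongrLeft fun _ : Fin m => τ)) = _
      rw [Equiv.Perm.sign_sumCongr, Equiv.Perm.sign_prodCongrLeft, Finset.prod_const,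
        Finset.card_univ, Fintype.card_fin, sign_pow_even τ m ⟨t, ht⟩, mul_one]
    rw [h1, h2, Matrix.det_permute', h4]
  have hfin : (((ε : ℤˣ) : ℤ) : N) ^ d * w = ((Equiv.Perm.sign π : ℤˣ) : ℤ) * w := by
    have h1 : σ w = ((Equiv.Perm.sign π : ℤˣ) : ℤ) * w := by
      rw [hw, map_mul, map_pow, coeff_map_equiv σ S hσS, hσdet]
      ring
    rw [← h1, hσw]
  have hfin2 : (((ε : ℤˣ) : ℤ) : N) ^ d = ((Equiv.Perm.sign π : ℤˣ) : ℤ) :=
    mul_right_cancel₀ hw0 hfin
  have hfin3 : ((ε ^ d : ℤˣ) : ℤ) = ((Equiv.Perm.sign π : ℤˣ) : ℤ) := by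
    have h1 : ((((ε ^ d : ℤˣ) : ℤ)) : N) = (((Equiv.Perm.sign π : ℤˣ) : ℤ) : N) := by
      rw [← hfin2]
      push_cast
      rfl
    exact_mod_cast h1
  exact (Units.ext hfin3).symm

end Pool.Agent.K3h66.Evn2
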