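import Pool.Agent.K3h17.Stm4
import Pool.Agent.K3h37.IGP.Ort2

/-!
Brick ORT2 of the project of helper17: an orthogonal basis for the trace form and integrality,
without the evenness hypothesis (the proof is that of `Pool.Agent.K3h37.Ort.t_ort` by helper37).
-/

set_option autoImplicit false
set_option linter.unusedSectionVars false
set_option linter.style.haveILetI false

namespace Pool.Agent.K3h66.Ort2

open Polynomial Pool.Agent.K3h17 Pool.Agent.K3h37.Ort

section
variable {K Ω : Type} [Field K] [CharZero K] [Field Ω] [Algebra (RatFunc K) Ω] [Algebra K Ω]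
  [IsScalarTower K (RatFunc K) Ω] [FiniteDimensional (RatFunc K) Ω] [IsGalois (RatFunc K) Ω]
variable (P : Subgroup (Ω ≃ₐ[RatFunc K] Ω))

lemma g_sq (e : Fin P.index → Ω) (D : Fin P.index → K[X])
    (h1 : ∀ r, ∀ γ ∈ P, γ (e r) = e r) (h2 : ∀ r s, r ≠ s → T P (e r * e s) = 0)
    (h3 : ∀ r, T P (e r * e r) = algebraMap K[X] (RatFunc K) (D r))
    (ε : Fin P.index ≃ (Ω ≃ₐ[RatFunc K] Ω) ⧸ P) :
    (Em P e ε).det ^ 2 = ∏ r, aeval (xx K Ω) (D r) := by
  classical
  have h5 := congrArg Matrix.det (Em_sq P e D h1 h2 h3 ε)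
  rw [Matrix.det_mul, Matrix.det_transpose, Matrix.det_diagonal] at h5
  rw [pow_two, h5]

lemma act_g (e : Fin P.index → Ω) (h1 : ∀ r, ∀ γ ∈ P, γ (e r) = e r)
    (ε : Fin P.index ≃ (Ω ≃ₐ[RatFunc K] Ω) ⧸ P) (γ : Ω ≃ₐ[RatFunc K] Ω)
    (f : Equiv.Perm ((Ω ≃ₐ[RatFunc K] Ω) ⧸ P)) (hf : ∀ q, f q = γ • q)
    (inst1 : Fintype ((Ω ≃ₐ[RatFunc K] Ω) ⧸ P)) (inst2 : DecidableEq ((Ω ≃ₐ[RatFunc K] Ω) ⧸ P)) :
    γ (Em P e ε).det = (((Equiv.Perm.sign f : ℤˣ) : ℤ) : Ω) * (Em P e ε).det := by
  set π : Equiv.Perm (Fin P.index) := (ε.trans f).trans ε.symm with hπ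
  have hsπ : Equiv.Perm.sign π = Equiv.Perm.sign f := by
    rw [hπ, Equiv.Perm.sign_trans_trans_symm]
  have h7 : (Em P e ε).map γ = (Em P e ε).submatrix π id := by
    ext i r
    rw [Matrix.map_apply, Matrix.submatrix_apply, Em_apply, Em_apply, out_eq P γ _ _ (h1 r)]
    simp [hπ, hf]
  have h8 : γ (Em P e ε).det = ((Em P e ε).map γ).det := by
    have := (γ : Ω →+* Ω).map_det (Em P e ε)
    exact this
  rw [h8, h7, Matrix.det_permute, hsπ]

lemma orth (e : Fin P.index → Ω) (D : Fin P.index → K[X])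
    (h1 : ∀ r, ∀ γ ∈ P, γ (e r) = e r) (h2 : ∀ r s, r ≠ s → T P (e r * e s) = 0)
    (h3 : ∀ r, T P (e r * e r) = algebraMap K[X] (RatFunc K) (D r)) (h4 : ∀ r, D r ≠ 0)
    (ε : Fin P.index ≃ (Ω ≃ₐ[RatFunc K] Ω) ⧸ P) (γ : Ω ≃ₐ[RatFunc K] Ω) (hγ : γ ∉ P) :
    ∑ r, e r * γ (e r) / aeval (xx K Ω) (D r) = 0 := by
  classical
  have h5 := Em_sq P e D h1 h2 h3 ε
  have h6 : (Matrix.diagonal (fun r => (aeval (xx K Ω) (D r))⁻¹) * (Em P e ε).transpose)
      * Em P e ε = 1 := by
    rw [Matrix.mul_assoc, h5, Matrix.diagonal_mul_diagonal, ← Matrix.diagonal_one]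
    congr 1
    ext r
    exact inv_mul_cancel₀ (aeval_ne (h4 r))
  have h7 := mul_eq_one_comm.1 h6
  set i₀ := ε.symm (QuotientGroup.mk 1) with hi
  set i₁ := ε.symm (QuotientGroup.mk γ) with hi1
  have hne : i₀ ≠ i₁ := by
    intro h
    have h' := ε.symm.injective h
    have h'' := QuotientGroup.eq.1 h'
    rw [inv_one, one_mul] at h''
    exact hγ h''
  have h8 := congrFun (congrFun h7 i₀) i₁
  rw [Matrix.mul_apply, Matrix.one_apply_ne hne] at h8
  rw [← h8]
  refine Finset.sum_congr rfl fun r _ => ?_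
  have h9 : Em P e ε i₀ r = e r := by
    rw [Em_apply, hi, Equiv.apply_symm_apply]
    apply h1
    have : (QuotientGroup.mk 1 : (Ω ≃ₐ[RatFunc K] Ω) ⧸ P)
        = QuotientGroup.mk (QuotientGroup.mk 1 : (Ω ≃ₐ[RatFunc K] Ω) ⧸ P).out := by
      rw [QuotientGroup.out_eq']
    have h := QuotientGroup.eq.1 this
    rwa [inv_one, one_mul] at h
  have h10 : Em P e ε i₁ r = γ (e r) := by
    rw [Em_apply, hi1, Equiv.apply_symm_apply]
    have : (QuotientGroup.mk γ : (Ω ≃ₐ[RatFunc K] Ω) ⧸ P)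
        = QuotientGroup.mk (QuotientGroup.mk γ : (Ω ≃ₐ[RatFunc K] Ω) ⧸ P).out := by
      rw [QuotientGroup.out_eq']
    have h := h1 r _ (QuotientGroup.eq.1 this)
    rw [AlgEquiv.mul_apply] at h
    have h' := congrArg γ h
    rw [← AlgEquiv.mul_apply, mul_inv_cancel, AlgEquiv.one_apply] at h'
    exact h'
  rw [Matrix.diagonal_mul, Matrix.transpose_apply, h9, h10]
  rw [div_eq_mul_inv]; ring

end

/-- Brick ORT2. -/
theorem t_ort2 : St_ort2 := by
  intro K Ω _ _ _ _ _ _ _ _ P
  classical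
  obtain ⟨e, D, h1, h2, h4, h3, h5⟩ := exists_basis' P
  have hcard : Nat.card ((Ω ≃ₐ[RatFunc K] Ω) ⧸ P) = P.index := rfl
  set ε : Fin P.index ≃ (Ω ≃ₐ[RatFunc K] Ω) ⧸ P :=
    (Finite.equivFinOfCardEq hcard).symm with hε
  set g : Ω := (Em P e ε).det with hgdef
  set c : Fin P.index × Fin P.index × Fin P.index → RatFunc K := fun i =>
    T P (e i.1 * e i.2.1 * e i.2.2) /
      (algebraMap K[X] (RatFunc K) (D i.2.1) * algebraMap K[X] (RatFunc K) (D i.2.2)) with hc
  obtain ⟨b, hb⟩ := IsLocalization.exist_integer_multiples_of_finite (nonZeroDivisors K[X]) c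
  choose N hN using hb
  set Δ : K[X] := (b : K[X]) with hΔ
  have hN' : ∀ r s t, algebraMap K[X] (RatFunc K) (N (r, s, t))
      = algebraMap K[X] (RatFunc K) Δ * c (r, s, t) := by
    intro r s t
    rw [hN, Algebra.smul_def]
  have hNs : ∀ r s t, N (r, s, t) = N (r, t, s) := by
    intro r s t
    apply FaithfulSMul.algebraMap_injective K[X] (RatFunc K)
    rw [hN', hN']
    congr 1
    simp only [hc]
    rw [mul_right_comm (e r) (e s) (e t), mul_comm (algebraMap K[X] (RatFunc K) (D s))]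
  refine ⟨e, D, g, Δ, ∑ r, ∑ s, ∑ t, ((D s).natDegree + (D t).natDegree
    + (N (r, s, t)).natDegree), h1, ?_, h4, g_sq P e D h1 h2 h3 ε, ?_,
    nonZeroDivisors.ne_zero b.2, sum_sq P e D h1 h2 h3 h4 ε, orth P e D h1 h2 h3 h4 ε, ?_⟩
  · intro z hz
    exact ⟨_, h5 z hz⟩
  · intro γ f hf inst1 inst2
    exact act_g P e h1 ε γ f hf inst1 inst2
  · rintro B z ⟨w, hw, hz⟩
    refine ⟨fun s t => ∑ r, w r * N (r, s, t), ?_, ?_, ?_⟩
    · intro s t
      refine Finset.sum_congr rfl fun r _ => ?_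
      rw [hNs]
    · intro s t
      simp only
      rw [Finset.mul_sum]
      refine Polynomial.natDegree_sum_le_of_forall_le _ _ fun r _ => ?_
      have t1 : (D s * D t * (w r * N (r, s, t))).natDegree
          ≤ (D s).natDegree + (D t).natDegree + ((w r).natDegree + (N (r, s, t)).natDegree) := by
        refine natDegree_mul_le.trans (add_le_add natDegree_mul_le natDegree_mul_le)
      have t2 : (D s).natDegree + (D t).natDegree + (N (r, s, t)).natDegree
          ≤ ∑ r, ∑ s, ∑ t, ((D s).natDegree + (D t).natDegree + (N (r, s, t)).natDegree) := by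
        refine le_trans ?_ (Finset.single_le_sum (f := fun r => ∑ s, ∑ t, ((D s).natDegree
          + (D t).natDegree + (N (r, s, t)).natDegree)) (fun _ _ => Nat.zero_le _)
          (Finset.mem_univ r))
        refine le_trans ?_ (Finset.single_le_sum (f := fun s => ∑ t, ((D s).natDegree
          + (D t).natDegree + (N (r, s, t)).natDegree)) (fun _ _ => Nat.zero_le _)
          (Finset.mem_univ s))
        exact Finset.single_le_sum (f := fun t => ((D s).natDegree
          + (D t).natDegree + (N (r, s, t)).natDegree)) (fun _ _ => Nat.zero_le _)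
          (Finset.mem_univ t)
      have t3 := hw r
      omega
    · intro s
      have hzf : ∀ γ ∈ P, γ z = z := by
        intro γ hγ
        rw [hz, map_sum]
        refine Finset.sum_congr rfl fun r _ => ?_
        rw [map_mul, h1 r γ hγ, aeval_xx, AlgEquiv.commutes]
      have h6 := h5 (z * e s) (fun γ hγ => by rw [map_mul, hzf γ hγ, h1 s γ hγ])
      rw [h6, Finset.mul_sum]
      refine Finset.sum_congr rfl fun t _ => ?_
      rw [← mul_assoc]
      congr 1
      have h7 : T P (z * e s * e t) = ∑ r, algebraMap K[X] (RatFunc K) (Δ * w r)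
          * T P (e r * e s * e t) := by
        rw [hz, Finset.sum_mul, Finset.sum_mul, map_sum]
        refine Finset.sum_congr rfl fun r _ => ?_
        rw [aeval_xx, mul_assoc, mul_assoc, T_mul, mul_assoc (e r)]
      have hD : ∀ r, algebraMap K[X] (RatFunc K) (D r) ≠ 0 := fun r => by
        rw [Ne, FaithfulSMul.algebraMap_eq_zero_iff]; exact h4 r
      have h8 : T P (z * e s * e t) / algebraMap K[X] (RatFunc K) (D t)
          = algebraMap K[X] (RatFunc K) (D s * ∑ r, w r * N (r, s, t)) := by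
        rw [h7, Finset.sum_div, map_mul, map_sum, Finset.mul_sum]
        refine Finset.sum_congr rfl fun r _ => ?_
        rw [map_mul (algebraMap K[X] (RatFunc K)) Δ, map_mul (algebraMap K[X] (RatFunc K)) (w r), hN']
        simp only [hc]
        have d1 := hD s
        have d2 := hD t
        field_simp
      rw [h8, aeval_xx, aeval_xx, ← map_mul, ← map_mul]

end Pool.Agent.K3h66.Ort2
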